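import Mathlib

/-!
# Three finite absolutely continuous measures in the plane not bisected by a square
-/

namespace Pool.Agent.Results.MP_3da004_co.NoSquare

open MeasureTheory Pointwise

/-- The Euclidean plane. -/
abbrev Plane := EuclideanSpace ℝ (Fin 2)

/-- The standard square `[0, s]²`. -/
def stdSquare (s : ℝ) : Set Plane := {x | ∀ i, 0 ≤ x i ∧ x i ≤ s}

/-- A square: any set congruent to `[0, s]²` for some `s > 0`. -/
def IsSquareSet (Q : Set Plane) : Prop :=
  ∃ (s : ℝ) (φ : Plane ≃ᵢ Plane), 0 < s ∧ Q = φ '' stdSquare s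

lemma std_convex (s : ℝ) : Convex ℝ (stdSquare s) := by
  intro x hx y hy a b ha hb hab i
  have h1 := hx i
  have h2 := hy i
  simp only [PiLp.add_apply, PiLp.smul_apply, smul_eq_mul]
  constructor
  · have := mul_nonneg ha h1.1
    have := mul_nonneg hb h2.1
    linarith
  · have e1 := mul_le_mul_of_nonneg_left h1.2 ha
    have e2 := mul_le_mul_of_nonneg_left h2.2 hb
    have : a * s + b * s = s := by rw [← add_mul, hab, one_mul]
    linarith

lemma std_closed (s : ℝ) : IsClosed (stdSquare s) := by
  have : stdSquare s = ⋂ i : Fin 2, {x : Plane | 0 ≤ x i ∧ x i ≤ s} := by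
    ext x; simp [stdSquare]
  rw [this]
  apply isClosed_iInter
  intro i
  exact (isClosed_le continuous_const (EuclideanSpace.proj i : Plane →L[ℝ] ℝ).continuous).inter
    (isClosed_le (EuclideanSpace.proj i : Plane →L[ℝ] ℝ).continuous continuous_const)

lemma std_bounded (s : ℝ) : Bornology.IsBounded (stdSquare s) := by
  rw [Metric.isBounded_iff_subset_closedBall 0]
  refine ⟨√(s ^ 2 + s ^ 2), ?_⟩
  intro x hx
  rw [mem_closedBall_zero_iff, EuclideanSpace.norm_eq]
  apply Real.sqrt_le_sqrt
  rw [Fin.sum_univ_two]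
  have h0 := hx 0
  have h1 := hx 1
  simp only [Real.norm_eq_abs, sq_abs]
  nlinarith

lemma std_interior {s : ℝ} (hs : 0 < s) : (interior (stdSquare s)).Nonempty := by
  have hopen : IsOpen {x : Plane | ∀ i, 0 < x i ∧ x i < s} := by
    have : {x : Plane | ∀ i, 0 < x i ∧ x i < s} = ⋂ i : Fin 2, {x : Plane | 0 < x i ∧ x i < s} := by
      ext x; simp
    rw [this]
    apply isOpen_iInter_of_finite
    intro i
    exact (isOpen_lt continuous_const (EuclideanSpace.proj i : Plane →L[ℝ] ℝ).continuous).inter
      (isOpen_lt (EuclideanSpace.proj i : Plane →L[ℝ] ℝ).continuous continuous_const)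
  have hsub : {x : Plane | ∀ i, 0 < x i ∧ x i < s} ⊆ interior (stdSquare s) := by
    apply interior_maximal _ hopen
    intro x hx i
    exact ⟨(hx i).1.le, (hx i).2.le⟩
  refine ⟨WithLp.toLp 2 (fun _ => s / 2), hsub ?_⟩
  intro i
  show 0 < s / 2 ∧ s / 2 < s
  constructor <;> linarith

lemma square_props {Q : Set Plane} (h : IsSquareSet Q) :
    Convex ℝ Q ∧ IsCompact Q ∧ (interior Q).Nonempty := by
  obtain ⟨s, φ, hs, rfl⟩ := h
  refine ⟨?_, ?_, ?_⟩
  · have h1 : (φ : Plane → Plane) = (φ.toRealAffineIsometryEquiv : Plane → Plane) := by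
      funext x; simp
    rw [h1]
    exact (std_convex s).affine_image (φ.toRealAffineIsometryEquiv.toAffineEquiv : Plane →ᵃ[ℝ] Plane)
  · exact (Metric.isCompact_of_isClosed_isBounded (std_closed s) (std_bounded s)).image
      φ.continuous
  · have h2 : φ '' interior (stdSquare s) ⊆ interior (φ '' stdSquare s) :=
      (φ.toHomeomorph.image_interior (stdSquare s)).le
    exact ((std_interior hs).image φ).mono h2

/-- The literal statement of Q1 is false: there are three finite absolutely continuous measures
on the plane (with unbounded supports) such that no square contains exactly half of each. In fact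
two of them already have this property. -/
theorem result : ∃ μ : Fin 3 → Measure Plane,
    (∀ i, IsFiniteMeasure (μ i)) ∧ (∀ i, μ i ≪ volume) ∧
    ¬ ∃ Q : Set Plane, IsSquareSet Q ∧ ∀ i, 2 * μ i Q = μ i Set.univ := by
  obtain ⟨ν, hfin, hvn, hnv⟩ := exists_isFiniteMeasure_absolutelyContinuous
    (volume : Measure Plane)
  have hmneg : Measurable (fun x : Plane => -x) := measurable_neg
  have hmsm : Measurable (fun x : Plane => (2 : ℝ) • x) := measurable_const_smul _
  set μ1 : Measure Plane := ν + ν.map (fun x => -x) with hμ1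
  have hf1 : IsFiniteMeasure μ1 := by rw [hμ1]; infer_instance
  set μ2 : Measure Plane := μ1.map (fun x => (2 : ℝ) • x) with hμ2
  have hf2 : IsFiniteMeasure μ2 := by rw [hμ2]; infer_instance
  have ac1 : μ1 ≪ volume := by
    have h3 : ν.map (fun x => -x) ≪ (volume : Measure Plane) := by
      have h4 : ν.map (fun x => -x) ≪ (volume : Measure Plane).map (fun x => -x) := hnv.map hmneg
      have h5 : (volume : Measure Plane).map (fun x => -x) = volume :=
        (Measure.measurePreserving_neg (volume : Measure Plane)).map_eq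
      rwa [h5] at h4
    intro s hs
    rw [hμ1, Measure.add_apply, hnv hs, h3 hs, add_zero]
  have ac1' : (volume : Measure Plane) ≪ μ1 := by
    intro s hs
    apply hvn
    rw [hμ1, Measure.add_apply] at hs
    exact (add_eq_zero.mp hs).1
  have ac2 : μ2 ≪ volume := by
    have h4 : μ2 ≪ (volume : Measure Plane).map (fun x => (2 : ℝ) • x) := ac1.map hmsm
    refine h4.trans ?_
    rw [Measure.map_addHaar_smul (volume : Measure Plane) (two_ne_zero : (2 : ℝ) ≠ 0)]
    exact Measure.smul_absolutelyContinuous
  have hsym : ∀ Q : Set Plane, MeasurableSet Q → μ1 ((fun x => -x) ⁻¹' Q) = μ1 Q := by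
    intro Q hQ
    have hQ' : MeasurableSet ((fun x : Plane => -x) ⁻¹' Q) := hmneg hQ
    rw [hμ1, Measure.add_apply, Measure.add_apply, Measure.map_apply hmneg hQ',
      Measure.map_apply hmneg hQ, add_comm]
    congr 2
    ext x; simp
  refine ⟨![μ1, μ2, μ1], ?_, ?_, ?_⟩
  · intro i
    fin_cases i
    · exact hf1
    · exact hf2
    · exact hf1
  · intro i
    fin_cases i
    · exact ac1
    · exact ac2
    · exact ac1
  · rintro ⟨Q, hQ, hhalf⟩
    obtain ⟨hconv, hcomp, hint⟩ := square_props hQ
    have hmeas : MeasurableSet Q := hcomp.isClosed.measurableSet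
    have e1 : 2 * μ1 Q = μ1 Set.univ := hhalf 0
    have e2 : 2 * μ2 Q = μ2 Set.univ := hhalf 1
    have hpre : MeasurableSet ((fun x : Plane => (2 : ℝ) • x) ⁻¹' Q) := hmsm hmeas
    rw [hμ2, Measure.map_apply hmsm hmeas, Measure.map_apply hmsm MeasurableSet.univ,
      Set.preimage_univ, ← e1] at e2
    have e3 : μ1 ((fun x : Plane => (2 : ℝ) • x) ⁻¹' Q) = μ1 Q := by
      have h2 : (2 : ENNReal) ≠ 0 := by norm_num
      have h2' : (2 : ENNReal) ≠ ⊤ := by norm_num
      exact (ENNReal.mul_right_inj h2 h2').mp e2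
    by_cases h0 : (0 : Plane) ∈ Q
    · have hsub : (fun x : Plane => (2 : ℝ) • x) ⁻¹' Q ⊆ Q := by
        intro x hx
        have h3 : (1 / 2 : ℝ) • ((2 : ℝ) • x) + (1 / 2 : ℝ) • (0 : Plane) ∈ Q :=
          hconv hx h0 (by norm_num) (by norm_num) (by norm_num)
        rwa [smul_zero, add_zero, smul_smul, show (1 / 2 : ℝ) * 2 = 1 by norm_num,
          one_smul] at h3
      have hD : μ1 (Q \ (fun x : Plane => (2 : ℝ) • x) ⁻¹' Q) = 0 := by
        rw [measure_sdiff hsub hpre.nullMeasurableSet (measure_ne_top _ _), e3, tsub_self]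
      have hD2 := ac1' hD
      have hvolQ : volume Q ≠ ⊤ := hcomp.measure_ne_top
      have hvolpos : 0 < volume Q :=
        (isOpen_interior.measure_pos volume hint).trans_le (measure_mono interior_subset)
      rw [measure_sdiff hsub hpre.nullMeasurableSet
        (ne_top_of_le_ne_top hvolQ (measure_mono hsub)), tsub_eq_zero_iff_le,
        Measure.addHaar_preimage_smul (volume : Measure Plane) (two_ne_zero : (2 : ℝ) ≠ 0),
        finrank_euclideanSpace_fin] at hD2
      have h5 : ENNReal.ofReal |((2 : ℝ) ^ 2)⁻¹| * volume Q < 1 * volume Q := by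
        apply ENNReal.mul_lt_mul_left hvolpos.ne' hvolQ
        rw [ENNReal.ofReal_lt_one]
        rw [abs_of_pos (by positivity)]
        norm_num
      rw [one_mul] at h5
      exact absurd hD2 (not_le.mpr h5)
    · have hdisj : Disjoint Q ((fun x : Plane => -x) ⁻¹' Q) := by
        rw [Set.disjoint_left]
        intro x hx hx'
        apply h0
        have h3 : (1 / 2 : ℝ) • x + (1 / 2 : ℝ) • (-x) ∈ Q :=
          hconv hx hx' (by norm_num) (by norm_num) (by norm_num)
        rwa [smul_neg, add_neg_cancel] at h3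
      have hU : μ1 (Q ∪ (fun x : Plane => -x) ⁻¹' Q) = μ1 Set.univ := by
        rw [measure_union hdisj (hmneg hmeas), hsym Q hmeas, ← two_mul, e1]
      have hUm : MeasurableSet (Q ∪ (fun x : Plane => -x) ⁻¹' Q) := hmeas.union (hmneg hmeas)
      have hc : μ1 (Q ∪ (fun x : Plane => -x) ⁻¹' Q)ᶜ = 0 := by
        rw [measure_compl hUm (measure_ne_top _ _), hU, tsub_self]
      have hc2 := ac1' hc
      have hcomp2 : IsCompact ((fun x : Plane => -x) ⁻¹' Q) := by
        have : (fun x : Plane => -x) ⁻¹' Q = (fun x : Plane => -x) '' Q := by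
          ext x
          constructor
          · intro hx; exact ⟨-x, hx, neg_neg x⟩
          · rintro ⟨y, hy, rfl⟩
            show - - y ∈ Q
            rwa [neg_neg]
        rw [this]
        exact hcomp.image continuous_neg
      have hfin2 : volume (Q ∪ (fun x : Plane => -x) ⁻¹' Q) < ⊤ :=
        (hcomp.union hcomp2).measure_lt_top
      have huniv : volume (Set.univ : Set Plane) < ⊤ := by
        rw [← Set.union_compl_self (Q ∪ (fun x : Plane => -x) ⁻¹' Q)]
        refine (measure_union_le _ _).trans_lt ?_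
        rw [hc2, add_zero]
        exact hfin2
      rw [measure_univ_of_isAddLeftInvariant] at huniv
      exact absurd huniv (lt_irrefl _)

end Pool.Agent.Results.MP_3da004_co.NoSquare
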